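import Mathlib

/-!
Combinatorial part: walks on a path, labelled by permutations.
-/

namespace Pool.Agent.X178.RR

open Finset

noncomputable section

/-- the overlap of the `p`-th and the `q`-th vector `e_p + e_{p+1}` -/
def g {N : ℕ} (p q : Fin N) : ℝ :=
  if p = q then 2 else if p.val + 1 = q.val ∨ q.val + 1 = p.val then 1 else 0

/-- the damped overlap -/
def h {N : ℕ} (p q : Fin N) : ℝ :=
  if p = q then 1 / 4 else if p.val + 1 = q.val ∨ q.val + 1 = p.val then 1 else 0

theorem g_nonneg {N : ℕ} (p q : Fin N) : 0 ≤ g p q := by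
  unfold g; split_ifs <;> norm_num

theorem h_nonneg {N : ℕ} (p q : Fin N) : 0 ≤ h p q := by
  unfold h; split_ifs <;> norm_num

/-- product of the overlaps along a word -/
def gw {N k : ℕ} (w : Fin (k + 1) → Fin N) : ℝ := ∏ t : Fin k, g (w t.castSucc) (w t.succ)

/-- product of the damped overlaps along a word -/
def hw {N k : ℕ} (w : Fin (k + 1) → Fin N) : ℝ := ∏ t : Fin k, h (w t.castSucc) (w t.succ)

/-- the number of the equal neighbours in a word -/
def stays {N k : ℕ} (w : Fin (k + 1) → Fin N) : ℕ :=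
  (univ.filter fun t : Fin k => w t.castSucc = w t.succ).card

theorem gw_nonneg {N k : ℕ} (w : Fin (k + 1) → Fin N) : 0 ≤ gw w :=
  prod_nonneg fun _ _ => g_nonneg _ _

theorem hw_nonneg {N k : ℕ} (w : Fin (k + 1) → Fin N) : 0 ≤ hw w :=
  prod_nonneg fun _ _ => h_nonneg _ _

theorem gw_eq {N k : ℕ} (w : Fin (k + 1) → Fin N) : gw w = 8 ^ stays w * hw w := by
  unfold gw hw stays
  rw [← Finset.prod_const, Finset.prod_filter, ← Finset.prod_mul_distrib]
  refine Finset.prod_congr rfl fun t _ => ?_
  unfold g h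
  split_ifs <;> norm_num

/-- a word of length `k + 1` has at most `1 +` (number of its changes) letters -/
theorem card_image_le {N : ℕ} : ∀ (k : ℕ) (w : Fin (k + 1) → Fin N),
    (univ.image w).card + stays w ≤ k + 1 := by
  intro k
  induction k with
  | zero =>
    intro w
    have : (univ.image w).card ≤ 1 := by
      refine (Finset.card_image_le).trans (by simp)
    have h2 : stays w = 0 := by
      unfold stays; simp
    omega
  | succ k ih =>
    intro w
    have h1 := ih (fun t => w t.succ)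
    have himg : (univ.image w) ⊆ insert (w 0) (univ.image fun t : Fin (k + 1) => w t.succ) := by
      intro x hx
      rw [Finset.mem_image] at hx
      obtain ⟨t, -, rfl⟩ := hx
      refine Fin.cases ?_ (fun t => ?_) t
      · simp
      · exact Finset.mem_insert_of_mem (Finset.mem_image_of_mem _ (mem_univ t))
    have hst : stays w = (if w 0 = w 1 then 1 else 0) + stays (fun t => w t.succ) := by
      unfold stays
      rw [Finset.card_filter, Finset.card_filter, Fin.sum_univ_succ]
      congr 1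
    by_cases h01 : w 0 = w 1
    · have hsub : (univ.image w) ⊆ (univ.image fun t : Fin (k + 1) => w t.succ) := by
        refine himg.trans ?_
        refine Finset.insert_subset ?_ (Finset.Subset.refl _)
        rw [h01]
        exact Finset.mem_image.2 ⟨0, mem_univ _, rfl⟩
      have := Finset.card_le_card hsub
      rw [hst, if_pos h01]
      omega
    · have := (Finset.card_le_card himg).trans (Finset.card_insert_le _ _)
      rw [hst, if_neg h01]
      omega

theorem stays_perm {N k : ℕ} (σ : Equiv.Perm (Fin N)) (w : Fin (k + 1) → Fin N) :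
    stays (fun t => σ (w t)) = stays w := by
  unfold stays
  simp

/-- many permutations give the same positions to the letters of a word -/
theorem fact_mul_le {N k : ℕ} (τ : Fin (k + 1) → Fin N) (σ₀ : Equiv.Perm (Fin N)) :
    ((N - (univ.image τ).card).factorial : ℝ) * gw (fun t => σ₀ (τ t)) ≤
      ∑ σ : Equiv.Perm (Fin N), gw (fun t => σ (τ t)) := by
  classical
  set S : Finset (Fin N) := univ.image τ with hS
  let P : Type := Equiv.Perm {x : Fin N // x ∉ S}
  let emb : P → Equiv.Perm (Fin N) := fun ρ => (Equiv.Perm.ofSubtype ρ).trans σ₀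
  have hinj : Function.Injective emb := by
    intro a b hab
    have h2 : Equiv.Perm.ofSubtype a = Equiv.Perm.ofSubtype b := by
      ext x
      have := congrArg (fun (e : Equiv.Perm (Fin N)) => σ₀.symm (e x)) hab
      simpa [emb] using congrArg Fin.val this
    exact Equiv.Perm.ofSubtype_injective h2
  have hcard : Fintype.card P = (N - S.card).factorial := by
    have : Fintype.card {x : Fin N // x ∉ S} = N - S.card := by
      rw [Fintype.card_subtype_compl, Fintype.card_fin, Fintype.card_coe]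
    rw [show Fintype.card P = Fintype.card (Equiv.Perm {x : Fin N // x ∉ S}) from rfl,
      Fintype.card_perm, this]
  have hval : ∀ ρ : P, gw (fun t => emb ρ (τ t)) = gw (fun t => σ₀ (τ t)) := by
    intro ρ
    have : (fun t => emb ρ (τ t)) = fun t => σ₀ (τ t) := by
      funext t
      have hmem : ¬ (τ t ∉ S) := by
        simp only [not_not, hS]
        exact Finset.mem_image_of_mem _ (mem_univ t)
      simp only [emb, Equiv.trans_apply]
      rw [Equiv.Perm.ofSubtype_apply_of_not_mem ρ hmem]
    rw [this]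
  calc ((N - S.card).factorial : ℝ) * gw (fun t => σ₀ (τ t))
      = ∑ ρ : P, gw (fun t => emb ρ (τ t)) := by
        rw [Finset.sum_congr rfl (fun ρ _ => hval ρ), Finset.sum_const, Finset.card_univ, hcard,
          nsmul_eq_mul]
    _ = ∑ σ ∈ univ.map ⟨emb, hinj⟩, gw (fun t => σ (τ t)) := by
        rw [Finset.sum_map]; rfl
    _ ≤ ∑ σ : Equiv.Perm (Fin N), gw (fun t => σ (τ t)) :=
        Finset.sum_le_sum_of_subset_of_nonneg (Finset.subset_univ _)
          (fun _ _ _ => gw_nonneg _)

theorem pow_le_fact : ∀ j : ℕ, (8 : ℝ) ^ j ≤ 417 * (j.factorial : ℝ) := by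
  intro j
  rcases Nat.lt_or_ge j 8 with hj | hj
  · interval_cases j <;> norm_num [Nat.factorial]
  · induction j, hj using Nat.le_induction with
    | base => norm_num [Nat.factorial]
    | succ n hn ih =>
      rw [pow_succ, Nat.factorial_succ]
      push_cast
      have h8 : (8 : ℝ) ≤ n + 1 := by
        have : (8 : ℝ) ≤ n := by exact_mod_cast hn
        linarith
      have hf : (0 : ℝ) ≤ n.factorial := by positivity
      calc (8 : ℝ) ^ n * 8 ≤ (417 * (n.factorial : ℝ)) * 8 :=
            mul_le_mul_of_nonneg_right ih (by norm_num)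
        _ ≤ (417 * (n.factorial : ℝ)) * (n + 1) := by gcongr
        _ = 417 * ((n + 1) * n.factorial) := by ring

/-- the key bound: one sector is dominated by the damped sum over all the sectors -/
theorem gw_le_sum {k : ℕ} (τ : Fin (k + 1) → Fin (k + 1)) (σ₀ : Equiv.Perm (Fin (k + 1))) :
    gw (fun t => σ₀ (τ t)) ≤
      417 * ∑ σ : Equiv.Perm (Fin (k + 1)), hw (fun t => σ (τ t)) := by
  set b := (univ.image τ).card with hb
  have h1 := fact_mul_le τ σ₀
  rw [← hb] at h1
  have h2 := pow_le_fact (k + 1 - b)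
  have h3 : b + stays τ ≤ k + 1 := card_image_le k τ
  have h4 : (8 : ℝ) ^ stays τ ≤ 8 ^ (k + 1 - b) :=
    pow_le_pow_right₀ (by norm_num) (by omega)
  have h5 : ∀ σ : Equiv.Perm (Fin (k + 1)),
      gw (fun t => σ (τ t)) = 8 ^ stays τ * hw (fun t => σ (τ t)) := by
    intro σ
    rw [gw_eq, stays_perm]
  have h6 : ∑ σ : Equiv.Perm (Fin (k + 1)), gw (fun t => σ (τ t)) =
      8 ^ stays τ * ∑ σ : Equiv.Perm (Fin (k + 1)), hw (fun t => σ (τ t)) := by
    rw [Finset.mul_sum]
    exact Finset.sum_congr rfl fun σ _ => h5 σ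
  have hpos : (0 : ℝ) < 8 ^ stays τ := by positivity
  have hg := gw_nonneg (fun t => σ₀ (τ t))
  have h7 : (8 : ℝ) ^ stays τ * gw (fun t => σ₀ (τ t)) ≤
      417 * (8 ^ stays τ * ∑ σ : Equiv.Perm (Fin (k + 1)), hw (fun t => σ (τ t))) := by
    calc (8 : ℝ) ^ stays τ * gw (fun t => σ₀ (τ t))
        ≤ (417 * ((k + 1 - b).factorial : ℝ)) * gw (fun t => σ₀ (τ t)) :=
          mul_le_mul_of_nonneg_right (h4.trans h2) hg
      _ = 417 * (((k + 1 - b).factorial : ℝ) * gw (fun t => σ₀ (τ t))) := by ring
      _ ≤ 417 * ∑ σ : Equiv.Perm (Fin (k + 1)), gw (fun t => σ (τ t)) := by gcongr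
      _ = _ := by rw [h6]
  have h8 : (8 : ℝ) ^ stays τ * gw (fun t => σ₀ (τ t)) ≤ 8 ^ stays τ *
      (417 * ∑ σ : Equiv.Perm (Fin (k + 1)), hw (fun t => σ (τ t))) := by
    linarith
  exact le_of_mul_le_mul_left h8 hpos

theorem sum_h_le {N : ℕ} (q : Fin N) : ∑ p : Fin N, h p q ≤ 9 / 4 := by
  classical
  have h1 : ∀ p : Fin N, h p q ≤ (if p = q then 1 / 4 else 0) +
      ((if p.val + 1 = q.val then 1 else 0) + (if q.val + 1 = p.val then 1 else 0)) := by
    intro p
    unfold h
    split_ifs <;> first | (exfalso; omega) | norm_num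
  have h2 : ∑ p : Fin N, (if p = q then (1 / 4 : ℝ) else 0) = 1 / 4 := by simp
  have h3 : ∑ p : Fin N, (if p.val + 1 = q.val then (1 : ℝ) else 0) ≤ 1 := by
    rw [Finset.sum_boole]
    have : (univ.filter fun p : Fin N => p.val + 1 = q.val).card ≤ 1 := by
      rw [Finset.card_le_one]
      intro a ha b hb
      simp only [mem_filter, mem_univ, true_and] at ha hb
      exact Fin.ext (by omega)
    exact_mod_cast this
  have h4 : ∑ p : Fin N, (if q.val + 1 = p.val then (1 : ℝ) else 0) ≤ 1 := by
    rw [Finset.sum_boole]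
    have : (univ.filter fun p : Fin N => q.val + 1 = p.val).card ≤ 1 := by
      rw [Finset.card_le_one]
      intro a ha b hb
      simp only [mem_filter, mem_univ, true_and] at ha hb
      exact Fin.ext (by omega)
    exact_mod_cast this
  calc ∑ p : Fin N, h p q ≤ ∑ p : Fin N, ((if p = q then (1 / 4 : ℝ) else 0) +
      ((if p.val + 1 = q.val then 1 else 0) + (if q.val + 1 = p.val then 1 else 0))) :=
        Finset.sum_le_sum fun p _ => h1 p
    _ = 1 / 4 + (∑ p : Fin N, (if p.val + 1 = q.val then (1 : ℝ) else 0) +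
        ∑ p : Fin N, (if q.val + 1 = p.val then (1 : ℝ) else 0)) := by
        rw [Finset.sum_add_distrib, Finset.sum_add_distrib, h2]
    _ ≤ 9 / 4 := by linarith

theorem sum_hw_le {N : ℕ} : ∀ k : ℕ,
    ∑ w : Fin (k + 1) → Fin N, hw w ≤ N * (9 / 4 : ℝ) ^ k := by
  intro k
  induction k with
  | zero =>
    have : ∀ w : Fin (0 + 1) → Fin N, hw w = 1 := fun w => by simp [hw]
    rw [Finset.sum_congr rfl fun w _ => this w]
    simp
  | succ k ih =>
    have hrec : ∀ w : Fin (k + 1 + 1) → Fin N,
        hw w = h (w 0) (w 1) * hw (fun t => w t.succ) := by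
      intro w
      unfold hw
      rw [Fin.prod_univ_succ]
      rfl
    have e : (∑ w : Fin (k + 1 + 1) → Fin N, hw w) =
        ∑ x : Fin N × (Fin (k + 1) → Fin N), h x.1 (x.2 0) * hw x.2 := by
      rw [← Equiv.sum_comp (Fin.consEquiv (fun _ : Fin (k + 1 + 1) => Fin N))]
      refine Finset.sum_congr rfl fun x _ => ?_
      rw [hrec]
      rfl
    rw [e, Fintype.sum_prod_type_right]
    calc ∑ w : Fin (k + 1) → Fin N, ∑ p : Fin N, h p (w 0) * hw w
        = ∑ w : Fin (k + 1) → Fin N, (∑ p : Fin N, h p (w 0)) * hw w := by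
          refine Finset.sum_congr rfl fun w _ => ?_
          rw [Finset.sum_mul]
      _ ≤ ∑ w : Fin (k + 1) → Fin N, (9 / 4) * hw w :=
          Finset.sum_le_sum fun w _ => mul_le_mul_of_nonneg_right (sum_h_le _) (hw_nonneg w)
      _ = (9 / 4) * ∑ w : Fin (k + 1) → Fin N, hw w := by rw [Finset.mul_sum]
      _ ≤ (9 / 4) * (N * (9 / 4 : ℝ) ^ k) := by gcongr
      _ = _ := by ring

/-- The total of the maxima over the sectors. -/
theorem sum_max_le {k : ℕ} (F : (Fin (k + 1) → Fin (k + 1)) → ℝ)
    (hF : ∀ τ, ∃ σ : Equiv.Perm (Fin (k + 1)), F τ ≤ 2 * gw (fun t => σ (τ t))) :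
    ∑ τ, F τ ≤ 2 * (417 * ((k + 1).factorial * ((k + 1) * (9 / 4 : ℝ) ^ k))) := by
  have h1 : ∀ τ, F τ ≤ 2 * (417 * ∑ σ : Equiv.Perm (Fin (k + 1)), hw (fun t => σ (τ t))) := by
    intro τ
    obtain ⟨σ, hσ⟩ := hF τ
    refine hσ.trans ?_
    have := gw_le_sum τ σ
    gcongr
  calc ∑ τ, F τ ≤ ∑ τ, 2 * (417 * ∑ σ : Equiv.Perm (Fin (k + 1)), hw (fun t => σ (τ t))) :=
        Finset.sum_le_sum fun τ _ => h1 τ
    _ = 2 * (417 * ∑ τ : Fin (k + 1) → Fin (k + 1),
          ∑ σ : Equiv.Perm (Fin (k + 1)), hw (fun t => σ (τ t))) := by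
        rw [Finset.mul_sum, Finset.mul_sum]
    _ = 2 * (417 * ∑ σ : Equiv.Perm (Fin (k + 1)),
          ∑ τ : Fin (k + 1) → Fin (k + 1), hw τ) := by
        rw [Finset.sum_comm]
        congr 2
        refine Finset.sum_congr rfl fun σ _ => ?_
        exact Equiv.sum_comp (Equiv.arrowCongr (Equiv.refl (Fin (k + 1))) σ) hw
    _ = 2 * (417 * ((k + 1).factorial * ∑ τ : Fin (k + 1) → Fin (k + 1), hw τ)) := by
        rw [Finset.sum_const, Finset.card_univ, Fintype.card_perm, Fintype.card_fin, nsmul_eq_mul]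
    _ ≤ _ := by
        have := sum_hw_le (N := k + 1) k
        push_cast at this
        gcongr

end

end Pool.Agent.X178.RR
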