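import Mathlib
import Pool.Agent.X178.RR.Comb

/-!
The matrices: direct sums, over all the permutations, of the projections (times two) on the
vectors `e_p + e_{p+1}`.
-/

namespace Pool.Agent.X178.RR

open Finset Matrix
open scoped Matrix.Norms.L2Operator ComplexOrder

noncomputable section

variable {𝕜 : Type} [RCLike 𝕜]

/-- the vector `e_p + e_{p+1}` -/
def u {N : ℕ} (p : Fin N) (a : Fin (N + 1)) : 𝕜 := if a = p.castSucc ∨ a = p.succ then 1 else 0

theorem u_eq {N : ℕ} (p : Fin N) (a : Fin (N + 1)) :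
    (u p a : 𝕜) = (if a = p.castSucc then 1 else 0) + (if a = p.succ then 1 else 0) := by
  have : p.castSucc ≠ p.succ := by
    intro h
    have := congrArg Fin.val h
    simp at this
  unfold u
  by_cases h1 : a = p.castSucc
  · subst h1
    simp [this]
  · simp [h1]

theorem u_dot {N : ℕ} (p q : Fin N) : ∑ a, (u p a : 𝕜) * u q a = ((g p q : ℝ) : 𝕜) := by
  simp only [u_eq, add_mul, mul_add, Finset.sum_add_distrib, ite_mul, one_mul, zero_mul,
    Finset.sum_ite_eq', Finset.mem_univ, if_true, mul_ite, mul_one, mul_zero]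
  unfold g
  simp only [Fin.ext_iff, Fin.val_castSucc, Fin.val_succ]
  split_ifs <;> first
    | (exfalso; omega)
    | (norm_num [RCLike.ofReal_ofNat])

/-- the dimension -/
def dim (N : ℕ) : ℕ := Fintype.card (Equiv.Perm (Fin N) × Fin (N + 1))

/-- numbering of the index set -/
def en (N : ℕ) : (Equiv.Perm (Fin N) × Fin (N + 1)) ≃ Fin (dim N) := Fintype.equivFin _

/-- the vector `e_p + e_{p+1}` in the sector of `σ` -/
def U {N : ℕ} (σ : Equiv.Perm (Fin N)) (p : Fin N) (x : Fin (dim N)) : 𝕜 :=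
  if ((en N).symm x).1 = σ then u p ((en N).symm x).2 else 0

theorem U_en {N : ℕ} (σ ρ : Equiv.Perm (Fin N)) (p : Fin N) (a : Fin (N + 1)) :
    (U σ p (en N (ρ, a)) : 𝕜) = if ρ = σ then u p a else 0 := by
  simp [U]

theorem sum_dim {N : ℕ} {M : Type*} [AddCommMonoid M] (f : Fin (dim N) → M) :
    ∑ x, f x = ∑ σ : Equiv.Perm (Fin N), ∑ a : Fin (N + 1), f (en N (σ, a)) := by
  rw [← Fintype.sum_prod_type', Equiv.sum_comp (en N) f]

theorem U_dot {N : ℕ} (σ ρ : Equiv.Perm (Fin N)) (p q : Fin N) :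
    (U σ p : Fin (dim N) → 𝕜) ⬝ᵥ U ρ q = if σ = ρ then ((g p q : ℝ) : 𝕜) else 0 := by
  unfold dotProduct
  rw [sum_dim]
  simp only [U_en]
  by_cases h1 : σ = ρ
  · subst h1
    rw [if_pos rfl, ← u_dot (𝕜 := 𝕜) p q, Finset.sum_eq_single σ]
    · simp
    · intro b _ hb
      simp [hb]
    · simp
  · rw [if_neg h1]
    refine Finset.sum_eq_zero fun τ _ => Finset.sum_eq_zero fun a _ => ?_
    by_cases h2 : τ = σ
    · subst h2
      simp [h1]
    · simp [h2]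

theorem star_u {N : ℕ} (p : Fin N) (a : Fin (N + 1)) : star (u p a : 𝕜) = u p a := by
  unfold u; split_ifs <;> simp

theorem star_U {N : ℕ} (σ : Equiv.Perm (Fin N)) (p : Fin N) :
    star (U σ p : Fin (dim N) → 𝕜) = U σ p := by
  funext x
  simp only [Pi.star_apply, U]
  split_ifs
  · exact star_u _ _
  · simp

/-- the matrices -/
def A {N : ℕ} (i : Fin N) : Matrix (Fin (dim N)) (Fin (dim N)) 𝕜 :=
  ∑ σ : Equiv.Perm (Fin N), vecMulVec (U σ (σ i)) (U σ (σ i))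

theorem A_posSemidef {N : ℕ} (i : Fin N) :
    (A i : Matrix (Fin (dim N)) (Fin (dim N)) 𝕜).PosSemidef := by
  unfold A
  refine Matrix.posSemidef_sum _ fun σ _ => ?_
  have := Matrix.posSemidef_vecMulVec_self_star (U σ (σ i) : Fin (dim N) → 𝕜)
  rwa [star_U] at this

/-- the combinations of the rank one matrices of the sectors -/
def comb {N : ℕ} (c : Equiv.Perm (Fin N) → ℝ) (p q : Equiv.Perm (Fin N) → Fin N) :
    Matrix (Fin (dim N)) (Fin (dim N)) 𝕜 :=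
  ∑ σ : Equiv.Perm (Fin N), ((c σ : ℝ) : 𝕜) • vecMulVec (U σ (p σ)) (U σ (q σ))

theorem A_mul_comb {N : ℕ} (i : Fin N) (c : Equiv.Perm (Fin N) → ℝ)
    (p q : Equiv.Perm (Fin N) → Fin N) :
    (A i : Matrix (Fin (dim N)) (Fin (dim N)) 𝕜) * comb c p q =
      comb (fun σ => g (σ i) (p σ) * c σ) (fun σ => σ i) q := by
  unfold A comb
  rw [Finset.sum_mul]
  refine Finset.sum_congr rfl fun σ _ => ?_
  rw [Finset.mul_sum, Finset.sum_eq_single σ]
  · rw [Matrix.mul_smul, Matrix.vecMulVec_mul_vecMulVec, U_dot, if_pos rfl]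
    rw [Matrix.vecMulVec_smul, smul_smul]
    push_cast
    congr 1
    ring
  · intro ρ _ hρ
    rw [Matrix.mul_smul, Matrix.vecMulVec_mul_vecMulVec, U_dot, if_neg (Ne.symm hρ)]
    simp
  · simp

theorem prod_eq {N : ℕ} : ∀ (k : ℕ) (τ : Fin (k + 1) → Fin N),
    (List.ofFn fun t => (A (τ t) : Matrix (Fin (dim N)) (Fin (dim N)) 𝕜)).prod =
      comb (fun σ => gw (fun t => σ (τ t))) (fun σ => σ (τ 0)) (fun σ => σ (τ (Fin.last k))) := by
  intro k
  induction k with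
  | zero =>
    intro τ
    simp only [List.ofFn_succ, List.ofFn_zero, List.prod_cons, List.prod_nil, mul_one]
    unfold A comb gw
    refine Finset.sum_congr rfl fun σ _ => ?_
    simp
  | succ k ih =>
    intro τ
    rw [List.ofFn_succ, List.prod_cons, ih (fun t => τ t.succ), A_mul_comb]
    congr 1
    funext σ
    unfold gw
    rw [Fin.prod_univ_succ]
    rfl

theorem comb_mulVec {N : ℕ} (c : Equiv.Perm (Fin N) → ℝ) (p q : Equiv.Perm (Fin N) → Fin N)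
    (x : Fin (dim N) → 𝕜) (σ : Equiv.Perm (Fin N)) (a : Fin (N + 1)) :
    ((comb c p q : Matrix (Fin (dim N)) (Fin (dim N)) 𝕜) *ᵥ x) (en N (σ, a)) =
      ((c σ : ℝ) : 𝕜) * u (p σ) a * ∑ b, u (q σ) b * x (en N (σ, b)) := by
  unfold comb
  rw [Matrix.sum_mulVec, Finset.sum_apply, Finset.sum_eq_single σ]
  · rw [Matrix.smul_mulVec, Matrix.vecMulVec_mulVec]
    simp only [Pi.smul_apply, smul_eq_mul, MulOpposite.smul_eq_mul_unop, MulOpposite.unop_op]
    rw [U_en, if_pos rfl]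
    unfold dotProduct
    rw [sum_dim, Finset.sum_eq_single σ]
    · simp only [U_en, if_true]
      ring
    · intro b _ hb
      refine Finset.sum_eq_zero fun a _ => ?_
      simp [U_en, hb]
    · simp
  · intro ρ _ hρ
    rw [Matrix.smul_mulVec, Matrix.vecMulVec_mulVec]
    simp only [Pi.smul_apply, smul_eq_mul, MulOpposite.smul_eq_mul_unop, MulOpposite.unop_op]
    rw [U_en, if_neg (Ne.symm hρ)]
    simp
  · simp

theorem norm_u_sq {N : ℕ} (p : Fin N) : ∑ a, ‖(u p a : 𝕜)‖ ^ 2 = 2 := by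
  have h := u_dot (𝕜 := ℝ) p p
  have h2 : ∀ a, ‖(u p a : 𝕜)‖ ^ 2 = (u p a : ℝ) * u p a := by
    intro a
    unfold u
    split_ifs <;> simp
  rw [Finset.sum_congr rfl fun a _ => h2 a, h]
  simp [g]

theorem norm_comb_le {N : ℕ} (c : Equiv.Perm (Fin N) → ℝ) (p q : Equiv.Perm (Fin N) → Fin N)
    (C : ℝ) (hC : 0 ≤ C) (hc : ∀ σ, |c σ| ≤ C) :
    ‖(comb c p q : Matrix (Fin (dim N)) (Fin (dim N)) 𝕜)‖ ≤ 2 * C := by
  rw [← l2_opNorm_toEuclideanCLM]
  set T := toEuclideanCLM (n := Fin (dim N)) (𝕜 := 𝕜) (comb c p q)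
  refine T.opNorm_le_bound (by positivity) fun x => ?_
  refine (sq_le_sq₀ (by positivity) (by positivity)).mp ?_
  simp only [(T x).norm_sq_eq, mul_pow, x.norm_sq_eq, ofLp_toEuclideanCLM, T]
  rw [sum_dim, sum_dim (fun i => ‖x.ofLp i‖ ^ 2), Finset.mul_sum]
  refine Finset.sum_le_sum fun σ _ => ?_
  simp only [comb_mulVec, norm_mul, mul_pow]
  rw [← Finset.sum_mul, ← Finset.mul_sum, norm_u_sq]
  have h1 : ‖∑ b, (u (q σ) b : 𝕜) * x.ofLp (en N (σ, b))‖ ^ 2 ≤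
      2 * ∑ b, ‖x.ofLp (en N (σ, b))‖ ^ 2 := by
    have h2 : ‖∑ b, (u (q σ) b : 𝕜) * x.ofLp (en N (σ, b))‖ ≤
        ∑ b, ‖(u (q σ) b : 𝕜)‖ * ‖x.ofLp (en N (σ, b))‖ :=
      (norm_sum_le _ _).trans (Finset.sum_le_sum fun b _ => (norm_mul_le _ _))
    have h3 := Finset.sum_mul_sq_le_sq_mul_sq univ (fun b => ‖(u (q σ) b : 𝕜)‖)
      (fun b => ‖x.ofLp (en N (σ, b))‖)
    rw [norm_u_sq] at h3
    exact (pow_le_pow_left₀ (norm_nonneg _) h2 2).trans h3
  have h4 : ‖((c σ : ℝ) : 𝕜)‖ ^ 2 ≤ C ^ 2 := by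
    rw [RCLike.norm_ofReal]
    exact pow_le_pow_left₀ (abs_nonneg _) (hc σ) 2
  have h5 : 0 ≤ ∑ b, ‖x.ofLp (en N (σ, b))‖ ^ 2 := Finset.sum_nonneg fun _ _ => by positivity
  calc ‖((c σ : ℝ) : 𝕜)‖ ^ 2 * 2 * ‖∑ b, (u (q σ) b : 𝕜) * x.ofLp (en N (σ, b))‖ ^ 2
      ≤ C ^ 2 * 2 * (2 * ∑ b, ‖x.ofLp (en N (σ, b))‖ ^ 2) := by gcongr
    _ = 2 ^ 2 * C ^ 2 * ∑ b, ‖x.ofLp (en N (σ, b))‖ ^ 2 := by ring

theorem le_norm_comb {N : ℕ} (c : Equiv.Perm (Fin N) → ℝ) (p q : Equiv.Perm (Fin N) → Fin N)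
    (σ : Equiv.Perm (Fin N)) :
    2 * |c σ| ≤ ‖(comb c p q : Matrix (Fin (dim N)) (Fin (dim N)) 𝕜)‖ := by
  set M : Matrix (Fin (dim N)) (Fin (dim N)) 𝕜 := comb c p q with hM
  let x : EuclideanSpace 𝕜 (Fin (dim N)) := WithLp.toLp 2 (U σ (q σ))
  have h1 := M.l2_opNorm_mulVec x
  have hx : ‖x‖ ^ 2 = 2 := by
    rw [x.norm_sq_eq, sum_dim, Finset.sum_eq_single σ]
    · simp only [x, U_en, if_true]
      exact norm_u_sq _
    · intro b _ hb
      refine Finset.sum_eq_zero fun a _ => ?_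
      simp [x, U_en, hb]
    · simp
  have hdot : ∑ b, (u (q σ) b : 𝕜) * x.ofLp (en N (σ, b)) = 2 := by
    have : ∀ b, x.ofLp (en N (σ, b)) = (u (q σ) b : 𝕜) := by
      intro b
      simp [x, U_en]
    rw [Finset.sum_congr rfl fun b _ => by rw [this b], u_dot]
    simp only [g, if_true]
    exact RCLike.ofReal_ofNat 2
  have hMx : ‖(EuclideanSpace.equiv (Fin (dim N)) 𝕜).symm (M *ᵥ x)‖ ^ 2 = (2 * |c σ|) ^ 2 * 2 := by
    rw [EuclideanSpace.norm_sq_eq, sum_dim, Finset.sum_eq_single σ]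
    · have : ∀ a, ((EuclideanSpace.equiv (Fin (dim N)) 𝕜).symm (M *ᵥ x)).ofLp (en N (σ, a)) =
          ((c σ : ℝ) : 𝕜) * u (p σ) a * 2 := by
        intro a
        rw [← hdot, ← comb_mulVec]
        rfl
      rw [Finset.sum_congr rfl fun a _ => by rw [this a]]
      simp only [norm_mul, mul_pow]
      rw [← Finset.sum_mul, ← Finset.mul_sum, norm_u_sq, RCLike.norm_ofReal]
      norm_num
      ring
    · intro ρ _ hρ
      refine Finset.sum_eq_zero fun a _ => ?_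
      have : ((EuclideanSpace.equiv (Fin (dim N)) 𝕜).symm (M *ᵥ x)).ofLp (en N (ρ, a)) = 0 := by
        have h2 : ((EuclideanSpace.equiv (Fin (dim N)) 𝕜).symm (M *ᵥ x)).ofLp (en N (ρ, a)) =
            ((comb c p q : Matrix (Fin (dim N)) (Fin (dim N)) 𝕜) *ᵥ x.ofLp) (en N (ρ, a)) := rfl
        rw [h2, comb_mulVec]
        have h3 : ∀ b, x.ofLp (en N (ρ, b)) = 0 := by
          intro b
          simp [x, U_en, hρ]
        simp [h3]
      rw [this]
      simp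
    · simp
  have h2 : (2 * |c σ|) ^ 2 * 2 ≤ (‖M‖ * ‖x‖) ^ 2 := by
    rw [← hMx]
    exact pow_le_pow_left₀ (norm_nonneg _) h1 2
  rw [mul_pow ‖M‖ ‖x‖, hx] at h2
  have h3 : (2 * |c σ|) ^ 2 ≤ ‖M‖ ^ 2 := by linarith
  exact (sq_le_sq₀ (by positivity) (norm_nonneg _)).1 h3

end

end Pool.Agent.X178.RR
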