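import Mathlib
import Pool.Agent.X178.RR.Op

/-!
The averages with and without replacement.
-/

namespace Pool.Agent.X178.RR

open Finset Matrix
open scoped Matrix.Norms.L2Operator ComplexOrder

noncomputable section

/-- the ratio -/
def r (N : ℕ) : ℝ := 417 * ((N.factorial : ℝ) * (N * (9 / 4 : ℝ) ^ (N - 1))) / (N : ℝ) ^ N

theorem step_aux {N : ℕ} (hN : 100 ≤ N) :
    (5 / 2 : ℝ) * (N : ℝ) ^ (N - 1) ≤ ((N : ℝ) + 1) ^ (N - 1) := by
  have hN' : (100 : ℝ) ≤ N := by exact_mod_cast hN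
  have hpos : (0 : ℝ) < N + 1 := by linarith
  have h1 : (N : ℝ) / (N + 1) ≤ Real.exp (-(1 / (N + 1))) := by
    have := Real.add_one_le_exp (-(1 / ((N : ℝ) + 1)))
    have h2 : (N : ℝ) / (N + 1) = -(1 / ((N : ℝ) + 1)) + 1 := by
      field_simp
      ring
    rw [h2]; exact this
  have h2 : ((N : ℝ) / (N + 1)) ^ (N - 1) ≤ Real.exp (-(99 / 101)) := by
    calc ((N : ℝ) / (N + 1)) ^ (N - 1) ≤ (Real.exp (-(1 / (N + 1)))) ^ (N - 1) :=
          pow_le_pow_left₀ (by positivity) h1 _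
      _ = Real.exp (((N - 1 : ℕ) : ℝ) * (-(1 / (N + 1)))) := by
          rw [← Real.exp_nat_mul]
      _ ≤ Real.exp (-(99 / 101)) := by
          rw [Real.exp_le_exp]
          have h3 : ((N - 1 : ℕ) : ℝ) = N - 1 := by
            rw [Nat.cast_sub (by omega)]; simp
          rw [h3]
          have h4 : (99 / 101 : ℝ) ≤ (N - 1) * (1 / (N + 1)) := by
            rw [mul_one_div, div_le_div_iff₀ (by norm_num) hpos]
            linarith
          linarith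
  have h3 : Real.exp (-(99 / 101)) ≤ 2 / 5 := by
    have h4 : (5 / 2 : ℝ) ≤ Real.exp (99 / 101) := by
      have h5 : Real.exp (99 / 101) = Real.exp 1 * Real.exp (-(2 / 101)) := by
        rw [← Real.exp_add]; congr 1; norm_num
      have h6 := Real.exp_one_gt_d9
      have h7 := Real.add_one_le_exp (-(2 / 101 : ℝ))
      rw [h5]
      nlinarith [Real.exp_pos (-(2 / 101 : ℝ))]
    rw [Real.exp_neg, inv_le_comm₀ (Real.exp_pos _) (by norm_num)]
    linarith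
  have h4 : ((N : ℝ) / (N + 1)) ^ (N - 1) ≤ 2 / 5 := h2.trans h3
  rw [div_pow, div_le_div_iff₀ (by positivity) (by norm_num)] at h4
  linarith

theorem r_step {N : ℕ} (hN : 100 ≤ N) : r (N + 1) ≤ 9 / 10 * r N := by
  have hN' : (100 : ℝ) ≤ N := by exact_mod_cast hN
  have hpos : (0 : ℝ) < N := by linarith
  have h1 := step_aux hN
  obtain ⟨M, rfl⟩ : ∃ M, N = M + 1 := ⟨N - 1, by omega⟩
  unfold r
  simp only [Nat.add_sub_cancel] at h1 ⊢
  push_cast at h1 hpos ⊢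
  have hM : (0 : ℝ) < (M : ℝ) + 1 := hpos
  rw [div_le_iff₀ (by positivity)]
  have e1 : 9 / 10 * (417 * (((M + 1).factorial : ℝ) * (((M : ℝ) + 1) * (9 / 4) ^ M)) /
      ((M : ℝ) + 1) ^ (M + 1)) * ((M : ℝ) + 1 + 1) ^ (M + 1 + 1) =
      (9 / 10 * (417 * (((M + 1).factorial : ℝ) * (((M : ℝ) + 1) * (9 / 4) ^ M))) *
        ((M : ℝ) + 1 + 1) ^ (M + 1 + 1)) / ((M : ℝ) + 1) ^ (M + 1) := by
    field_simp
  rw [e1, le_div_iff₀ (by positivity), Nat.factorial_succ (M + 1)]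
  push_cast
  have hF : (0 : ℝ) ≤ (M + 1).factorial := by positivity
  have e2 : 417 * (((M : ℝ) + 1 + 1) * ((M + 1).factorial : ℝ) *
      (((M : ℝ) + 1 + 1) * (9 / 4) ^ (M + 1))) * ((M : ℝ) + 1) ^ (M + 1) =
      (417 * ((M + 1).factorial : ℝ) * (9 / 4) ^ M * (9 / 10) * ((M : ℝ) + 1 + 1) ^ 2 *
        ((M : ℝ) + 1)) * (5 / 2 * ((M : ℝ) + 1) ^ M) := by
    ring
  have e3 : 9 / 10 * (417 * (((M + 1).factorial : ℝ) * (((M : ℝ) + 1) * (9 / 4) ^ M))) *
        ((M : ℝ) + 1 + 1) ^ (M + 1 + 1) =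
      (417 * ((M + 1).factorial : ℝ) * (9 / 4) ^ M * (9 / 10) * ((M : ℝ) + 1 + 1) ^ 2 *
        ((M : ℝ) + 1)) * (((M : ℝ) + 1 + 1) ^ M) := by
    ring
  rw [e2, e3]
  gcongr

theorem r_base : r 100 ≤ 1 / 50 := by
  unfold r
  rw [div_le_iff₀ (by positivity)]
  norm_num [Nat.factorial]

theorem r_le (j : ℕ) : r (100 + j) ≤ (1 / 50) * (9 / 10) ^ j := by
  induction j with
  | zero => simpa using r_base
  | succ j ih =>
    have := r_step (N := 100 + j) (by omega)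
    rw [← add_assoc, pow_succ]
    linarith

/-- the average of the norms of the products, with replacement -/
def W {𝕜 : Type} [RCLike 𝕜] {n : ℕ} (m : ℕ) {d : ℕ}
    (A : Fin n → Matrix (Fin d) (Fin d) 𝕜) : ℝ :=
  (∑ j : Fin m → Fin n, ‖(List.ofFn fun t => A (j t)).prod‖) / (n : ℝ) ^ m

/-- the average of the norms of the products, without replacement -/
def D {𝕜 : Type} [RCLike 𝕜] {n : ℕ} (m : ℕ) {d : ℕ}
    (A : Fin n → Matrix (Fin d) (Fin d) 𝕜) : ℝ :=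
  ((n - m).factorial : ℝ) / n.factorial *
    ∑ j : Fin m ↪ Fin n, ‖(List.ofFn fun t => A (j t)).prod‖

variable {𝕜 : Type} [RCLike 𝕜]

theorem exists_max {N k : ℕ} (τ : Fin (k + 1) → Fin N) :
    ∃ σ : Equiv.Perm (Fin N), ‖(List.ofFn fun t =>
      (RR.A (τ t) : Matrix (Fin (dim N)) (Fin (dim N)) 𝕜)).prod‖ ≤
        2 * gw (fun t => σ (τ t)) := by
  obtain ⟨σ, -, hσ⟩ := Finset.exists_max_image (univ : Finset (Equiv.Perm (Fin N)))
    (fun σ => gw (fun t => σ (τ t))) ⟨1, mem_univ _⟩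
  refine ⟨σ, ?_⟩
  rw [prod_eq]
  refine norm_comb_le _ _ _ _ (gw_nonneg _) fun ρ => ?_
  rw [abs_of_nonneg (gw_nonneg _)]
  exact hσ ρ (mem_univ _)

theorem W_le (k : ℕ) : W (k + 1) (fun i : Fin (k + 1) =>
    (RR.A i : Matrix (Fin (dim (k + 1))) (Fin (dim (k + 1))) 𝕜)) ≤ 2 * r (k + 1) := by
  unfold W
  have h := sum_max_le (k := k) (fun τ => ‖(List.ofFn fun t =>
      (RR.A (τ t) : Matrix (Fin (dim (k + 1))) (Fin (dim (k + 1))) 𝕜)).prod‖)
    (fun τ => exists_max τ)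
  unfold r
  rw [div_le_iff₀ (by positivity)]
  refine h.trans (le_of_eq ?_)
  simp only [Nat.add_sub_cancel]
  push_cast
  field_simp

theorem gw_id (k : ℕ) : gw (fun t : Fin (k + 1) => t) = 1 := by
  unfold gw
  refine Finset.prod_eq_one fun t _ => ?_
  unfold g
  rw [if_neg, if_pos]
  · left
    simp
  · intro h
    have := congrArg Fin.val h
    simp at this

theorem two_le_D (k : ℕ) : 2 ≤ D (k + 1) (fun i : Fin (k + 1) =>
    (RR.A i : Matrix (Fin (dim (k + 1))) (Fin (dim (k + 1))) 𝕜)) := by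
  unfold D
  have h1 : ∀ j : Fin (k + 1) ↪ Fin (k + 1), (2 : ℝ) ≤ ‖(List.ofFn fun t =>
      (RR.A (j t) : Matrix (Fin (dim (k + 1))) (Fin (dim (k + 1))) 𝕜)).prod‖ := by
    intro j
    let e : Equiv.Perm (Fin (k + 1)) := Equiv.ofBijective j
      (Finite.injective_iff_bijective.1 j.injective)
    have h := le_norm_comb (𝕜 := 𝕜) (fun σ : Equiv.Perm (Fin (k + 1)) => gw (fun t => σ (j t)))
      (fun σ => σ (j 0)) (fun σ => σ (j (Fin.last k))) e.symm
    rw [prod_eq]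
    have h2 : (fun t => e.symm (j t)) = fun t => t := by
      funext t
      exact e.symm_apply_apply t
    rw [h2, gw_id] at h
    simpa using h
  have h2 : (2 : ℝ) * (k + 1).factorial ≤ ∑ j : Fin (k + 1) ↪ Fin (k + 1), ‖(List.ofFn fun t =>
      (RR.A (j t) : Matrix (Fin (dim (k + 1))) (Fin (dim (k + 1))) 𝕜)).prod‖ := by
    have h3 := Finset.card_nsmul_le_sum univ (fun j : Fin (k + 1) ↪ Fin (k + 1) =>
      ‖(List.ofFn fun t =>
      (RR.A (j t) : Matrix (Fin (dim (k + 1))) (Fin (dim (k + 1))) 𝕜)).prod‖) 2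
      (fun j _ => h1 j)
    rw [Finset.card_univ, Fintype.card_embedding_eq, Fintype.card_fin, Nat.descFactorial_self,
      nsmul_eq_mul] at h3
    linarith
  rw [Nat.sub_self, Nat.factorial_zero, Nat.cast_one, one_div, ← div_eq_inv_mul,
    le_div_iff₀ (by positivity)]
  exact h2

theorem dim_pos (N : ℕ) : 0 < dim N := by
  unfold dim
  exact Fintype.card_pos

theorem main (𝕜 : Type) [RCLike 𝕜] (n : ℕ) (hn : 100 ≤ n) :
    ∃ (d : ℕ) (A : Fin n → Matrix (Fin d) (Fin d) 𝕜), 1 ≤ d ∧ (∀ i, (A i).PosSemidef) ∧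
      0 < D n A ∧ W n A ≤ (1 / 50) * (9 / 10 : ℝ) ^ (n - 100) * D n A := by
  obtain ⟨k, rfl⟩ : ∃ k, n = k + 1 := ⟨n - 1, by omega⟩
  have h1 := W_le (𝕜 := 𝕜) k
  have h2 := two_le_D (𝕜 := 𝕜) k
  have h3 := r_le (k + 1 - 100)
  rw [show 100 + (k + 1 - 100) = k + 1 by omega] at h3
  refine ⟨dim (k + 1), fun i => RR.A i, dim_pos _, fun i => A_posSemidef i, by linarith, ?_⟩
  have h4 : (0 : ℝ) ≤ 1 / 50 * (9 / 10) ^ (k + 1 - 100) := by positivity
  calc W (k + 1) (fun i : Fin (k + 1) =>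
        (RR.A i : Matrix (Fin (dim (k + 1))) (Fin (dim (k + 1))) 𝕜)) ≤ 2 * r (k + 1) := h1
    _ ≤ (1 / 50 * (9 / 10) ^ (k + 1 - 100)) * 2 := by linarith
    _ ≤ (1 / 50 * (9 / 10) ^ (k + 1 - 100)) * D (k + 1) (fun i : Fin (k + 1) =>
        (RR.A i : Matrix (Fin (dim (k + 1))) (Fin (dim (k + 1))) 𝕜)) := by gcongr

theorem fails (𝕜 : Type) [RCLike 𝕜] :
    ¬ ∀ (n m d : ℕ) (A : Fin n → Matrix (Fin d) (Fin d) 𝕜), 1 ≤ m → m ≤ n → 1 ≤ d →
      (∀ i, (A i).PosSemidef) → D m A ≤ W m A := by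
  intro h
  obtain ⟨d, A, hd, hA, hpos, hle⟩ := main 𝕜 100 le_rfl
  have := h 100 100 d A (by norm_num) le_rfl hd hA
  simp only [Nat.sub_self, pow_zero] at hle
  linarith

end

end Pool.Agent.X178.RR
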